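import Mathlib
import Pool.Agent.H423.AB.KAmp
import Pool.Agent.H423.AB.Num

/-!
# Failures of the abc inequality over a number field multiply, with the same denominators, near a cusp

Let `K` be a number field, `S` a finite set of finite places and `δ₀ > 0`. We consider the points
`P = (y : 1 - y : -1)` over `K` with `|y|_v < δ₀` at all infinite places and at the places of `S`.

If the abc conjecture over `K` is false, then for all small `ε > 0` and every `C` there are at least
`ε ^ (-s)` such points with `h (P) ≥ (1 + ε) rad (P) + C` whose `y` have the same denominators: the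
same absolute values `max 1 |y|_v` at all finite places `v`. So one violation produces many,
slightly weaker violations with one and the same denominator ideal in a neighbourhood of the cusp
`y = 0`. Here `s ≥ 0` is any number with `∑ 3 ≤ m ≤ M, (m - 2) m ^ (-s) > 1` for some `M`, that is, any
`s < 2.478...` (the solution of `ζ (s - 1) = 2 ζ (s)`), for instance `s = 12 / 5`.

The proof: the polynomials `∑ j ≥ a, (m choose j) y ^ j (1 - y) ^ (m - j)`, `2 ≤ a ≤ m - 1`, map such points
to such points; they raise the denominators to the `m`-th power, if `S` contains the primes dividing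
`m!`, and the height is multiplied by `m`, while the radical grows by at most `(m - 1) h + O(1)`. The
composition semigroup of these polynomials is free.
-/

namespace Pool.Agent.Results.MP_a793bb_nt.BinomialExceptionsOverK

open NumberField Pool.Agent.H423.AB
open Pool.Agent.Results.MP_a793bb_nt.Localisation (ABC)

/-- **The abc conjecture over a number field is equivalent to a bound for the number of the
exceptional points with the same denominators in a neighbourhood of a cusp.** -/
theorem result (K : Type) [Field K] [NumberField K] (S : Finset (FinitePlace K)) (δ₀ : ℝ) (hδ₀ : 0 < δ₀) :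
    (∀ (s : ℝ) (M : ℕ), 0 ≤ s → 1 < ∑ m ∈ Finset.Icc 3 M, ((m : ℝ) - 2) * (m : ℝ) ^ (-s) →
        (ABC K ↔ ∀ δ : ℝ, 0 < δ → ∃ ε : ℝ, 0 < ε ∧ ε < δ ∧ ∃ C : ℝ, ∀ f : FinitePlace K → ℝ,
          ((ExcNear S δ₀ ε C f).ncard : ℝ) < ε ^ (-s))) ∧
    (ABC K ↔ ∀ δ : ℝ, 0 < δ → ∃ ε : ℝ, 0 < ε ∧ ε < δ ∧ ∃ C : ℝ, ∀ f : FinitePlace K → ℝ,
        ((ExcNear S δ₀ ε C f).ncard : ℝ) < ε ^ (-(12 / 5 : ℝ))) ∧
    ∀ (ε C : ℝ) (f : FinitePlace K → ℝ), (ExcNear S δ₀ ε C f).Finite :=
  ⟨fun s M hs0 hs => multiplicityK K s hs0 M hs S δ₀ hδ₀,
    multiplicityK K (12 / 5) (by norm_num) 160 num S δ₀ hδ₀,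
    fun ε C f => exc_finite S δ₀ ε C f⟩

end Pool.Agent.Results.MP_a793bb_nt.BinomialExceptionsOverK
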