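import Pool.Graph.R_pool_sql_team_seeded_3997aac3.Results.MP_6e34ef_nt.ValuesOfOneBelyiMap
import Pool.Graph.R_pool_sql_team_seeded_3997aac3.Results.MP_a793bb_nt.Localisation
import Pool.Agent.H423.SH.Den

/-!
# The abc conjecture over number fields and the size of the clusters of its exceptions

For every `n ≥ 8` there are numbers `A`, `N`, `B` such that every number field `K` has an extension
`L` of degree at most `B` with the following property. If the abc inequality with exponent `1 + ε₀`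
fails over `K` (for every constant), then for all `ε` with `3 n (1 + ε₀) ε ≤ ε₀` and every `C` there
are at least `2 ^ (n + 1)` exceptions over `L` to the inequality with exponent `1 + ε` and constant
`C`, which have the same height up to the error `A` and the same denominators at all primes which do
not divide `N`. So the number of the exceptions in one cluster grows exponentially in `1 / ε`.

Proof. For all integers `m_1, …, m_k ≥ 1` there are `(k - 1)!` points `(z_1 : … : z_k)` over the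
algebraic numbers with `∑ m_i z_i ^ j = 0` for `1 ≤ j < k`. For `m_i = 1` the `z_i` are the `k`-th
roots of unity in some order, and the points can be continued in the weights `m_i`. So there are
exponentially many polynomials `f = 1 - ∏ (1 - z_i X) ^ m_i`, `z_1 = 1`, of degree `D = ∑ m_i`, which
are divisible by `X ^ k` (Shabat polynomials, their trees have diameter four). The exceptions are the
values of these polynomials at one exception.
-/

set_option autoImplicit false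

open NumberField Polynomial Height

namespace Pool.Agent.Results.MP_a793bb_nt.ExponentialClusters

open Pool.Agent.Results.MP_a793bb_nt.Localisation (h rad IsPoint ABCOn ABC)
open Pool.Agent.Results.MP_6e34ef_nt.ValuesOfOneBelyiMap (height_low height_up h1_eq)

section defs

variable {K : Type} [Field K] [NumberField K]

variable (K) in
/-- The abc inequality over `K` with exponent `1 + ε` holds for some constant. -/
def Inequality (ε : ℝ) : Prop :=
  ∃ C : ℝ, ∀ x : Fin 3 → K, IsPoint x → h x < (1 + ε) * rad x + C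

/-- `W` is a cluster of exceptions: all `y` in `W` are different from `0` and `1`, and the points
`P = (y : 1 - y : -1)` satisfy `h (P) ≥ (1 + ε) rad (P) + C`; the heights of any two of these points
differ by at most `A`; and any two of the `y` have the same denominators at all primes of `K` which
do not divide `N`. -/
def Cluster (ε C A : ℝ) (N : ℕ) (W : Finset K) : Prop :=
  (∀ y ∈ W, y ≠ 0 ∧ y ≠ 1 ∧ (1 + ε) * rad ![y, 1 - y, -1] + C ≤ h ![y, 1 - y, -1]) ∧
  (∀ y ∈ W, ∀ z ∈ W, h ![y, 1 - y, -1] ≤ h ![z, 1 - z, -1] + A) ∧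
  ∀ y ∈ W, ∀ z ∈ W, ∀ v : FinitePlace K, v (N : K) = 1 → max 1 (v y) = max 1 (v z)

end defs

section lemmas

variable {K : Type} [Field K] [NumberField K]

omit [Field K] [NumberField K] in
theorem eta (x : Fin 3 → K) : x = ![x 0, x 1, x 2] := by
  funext i
  fin_cases i <;> rfl

theorem rad_eq {x : Fin 3 → K} (hx : IsPoint x) :
    rad x = Real.log (Q265.NF.PP (Q265.BD.UsA ∅ ![0, 1] (-x 0 / x 2))) / Module.finrank ℚ K := by
  rw [← MP_6e34ef_nt.ValuesOfOneBelyiMap.logN_eq (hx.2 2) hx.1]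
  unfold rad MP_6e34ef_nt.ValuesOfOneBelyiMap.logN
  congr 1
  refine finsum_congr fun v => ?_
  have e : (∃ i j, v (x i) ≠ v (x j)) ↔ ¬ (v (x 0) = v (x 1) ∧ v (x 1) = v (x 2)) := by
    constructor
    · rintro ⟨i, j, hij⟩ ⟨h1, h2⟩
      apply hij
      fin_cases i <;> fin_cases j <;> simp_all
    · intro h
      by_contra hn
      push Not at hn
      exact h ⟨hn 0 1, hn 1 2⟩
  exact finsum_congr_Prop (propext e) fun _ => rfl

theorem rad_one {y : K} (h0 : y ≠ 0) (h1 : y ≠ 1) : rad ![y, 1 - y, -1] =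
    Real.log (Q265.NF.PP (Q265.BD.UsA ∅ ![0, 1] y)) / Module.finrank ℚ K := by
  rw [rad_eq (x := ![y, 1 - y, -1]) ⟨by simp, fun i => by
        fin_cases i
        · exact h0
        · exact sub_ne_zero.2 (Ne.symm h1)
        · exact neg_ne_zero.2 one_ne_zero⟩]
  have e : -(![y, 1 - y, -1] : Fin 3 → K) 0 / (![y, 1 - y, -1] : Fin 3 → K) 2 = y := by
    show -y / (-1) = y
    rw [neg_div_neg_eq, div_one]
  rw [e]

theorem h_one_low (x : K) : logHeight₁ x / Module.finrank ℚ K ≤ h ![x, 1 - x, -1] := by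
  have h7 := height_low x (1 - x) (-1)
  rw [h1_eq, neg_div_neg_eq, div_one] at h7
  unfold h
  gcongr

theorem h_one_up {x : K} (h0 : x ≠ 0) (h1 : x ≠ 1) :
    h ![x, 1 - x, -1] ≤ logHeight₁ x / Module.finrank ℚ K + Real.log 2 := by
  have hn : (0 : ℝ) < Module.finrank ℚ K := by exact_mod_cast Module.finrank_pos
  have h7 := height_up (a := x) (b := 1 - x) (c := -1) h0 (sub_ne_zero.2 h1.symm)
    (neg_ne_zero.2 one_ne_zero) (by ring)
  rw [h1_eq, neg_div_neg_eq, div_one] at h7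
  unfold h
  rw [div_le_iff₀ hn, add_mul, div_mul_cancel₀ _ hn.ne']
  linarith

end lemmas

/-- the arithmetic of the numbers of maps -/
theorem many_enough {n : ℕ} (hn : 8 ≤ n) {N : ℕ} (h : n.centralBinom ≤ 2 * n * N) :
    2 ^ (n + 1) ≤ N := by
  have h2 := Nat.four_pow_lt_mul_centralBinom n (by omega)
  have h3 : 4 ^ n ≤ n * (2 * n * N) := h2.le.trans (Nat.mul_le_mul_left _ h)
  have h4 : ∀ n : ℕ, 8 ≤ n → 4 * n ^ 2 ≤ 2 ^ n := by
    intro n hn
    induction n, hn using Nat.le_induction with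
    | base => norm_num
    | succ n hn ih =>
      rw [pow_succ 2 n]
      nlinarith
  have h5 := h4 n hn
  have h6 : 2 ^ (n + 1) * (2 * n ^ 2) ≤ N * (2 * n ^ 2) := by
    calc 2 ^ (n + 1) * (2 * n ^ 2) = 2 ^ n * (4 * n ^ 2) := by ring
      _ ≤ 2 ^ n * 2 ^ n := Nat.mul_le_mul_left _ h5
      _ = 4 ^ n := by
        rw [← mul_pow]
        norm_num
      _ ≤ n * (2 * n * N) := h3
      _ = N * (2 * n ^ 2) := by ring
  exact Nat.le_of_mul_le_mul_right h6 (by positivity)

/-- the arithmetic of the inequality for a value -/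
theorem arith {ε η D hh E C C1 X Y : ℝ} (hε : 0 < ε) (hη : 0 ≤ η) (hDε : ε * D ≤ η)
    (hh0 : 0 ≤ hh) (hC1 : 0 ≤ C1)
    (hsmall : E + |C| + (3 + ε) * C1 < (1 - η) * hh)
    (r3 : X ≤ E + (D - 1) * hh + C1) (r1 : D * hh - C1 ≤ Y) : (1 + ε) * X + C < Y := by
  have r4 : X < (D - η) * hh - |C| - (2 + ε) * C1 := by
    have e : (D - η) * hh = (1 - η) * hh + (D - 1) * hh := by ring
    have e2 : (3 + ε) * C1 = (2 + ε) * C1 + C1 := by ring
    rw [e]
    linarith
  have r5 : (1 + ε) * X < (1 + ε) * ((D - η) * hh - |C| - (2 + ε) * C1) :=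
    mul_lt_mul_of_pos_left r4 (by linarith)
  have r6 : (1 + ε) * ((D - η) * hh) ≤ D * hh := by
    have e : D * hh - (1 + ε) * ((D - η) * hh) = (η - ε * D + ε * η) * hh := by ring
    have h1 : 0 ≤ (η - ε * D + ε * η) * hh := by
      refine mul_nonneg ?_ hh0
      have : 0 ≤ ε * η := by positivity
      linarith
    linarith
  have r7 : (1 + ε) * ((D - η) * hh - |C| - (2 + ε) * C1) =
      (1 + ε) * ((D - η) * hh) - |C| - ε * |C| - (1 + ε) * ((2 + ε) * C1) := by ring
  have r8 : 0 ≤ ε * |C| := mul_nonneg hε.le (abs_nonneg C)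
  have r9 : C1 ≤ (1 + ε) * ((2 + ε) * C1) := by
    have g1 : C1 ≤ (2 + ε) * C1 := by nlinarith
    have g2 : (2 + ε) * C1 ≤ (1 + ε) * ((2 + ε) * C1) := by
      have : 0 ≤ (2 + ε) * C1 := by positivity
      nlinarith
    linarith
  have r10 := le_abs_self C
  linarith

/-- **Large clusters.** -/
theorem clusters (n : ℕ) (hn : 8 ≤ n) : ∃ (A : ℝ) (N B : ℕ), 0 < N ∧
    ∀ (K : Type) [Field K] [NumberField K], ∃ (L : Type) (_ : Field L) (_ : NumberField L)
      (_ : Algebra K L), Module.finrank K L ≤ B ∧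
      ∀ ε₀ : ℝ, 0 < ε₀ → ¬ Inequality K ε₀ → ∀ ε : ℝ, 0 < ε → 3 * n * (1 + ε₀) * ε ≤ ε₀ →
        ∀ C : ℝ, ∃ W : Finset L, Cluster ε C A N W ∧ 2 ^ (n + 1) ≤ W.card := by
  classical
  obtain ⟨F, i1, i2, P, hP1, hP2⟩ := Pool.Agent.H423.SH.exists_many n (by omega)
  obtain ⟨D, hD⟩ : ∃ D : ℕ, D = 3 * n := ⟨_, rfl⟩
  rw [← hD] at hP2
  have hD1 : 1 ≤ D := by omega
  obtain ⟨C1, hC1, fam⟩ := Pool.Agent.H423.SH.family hD1 P hP2
  obtain ⟨N, hN, den⟩ := Pool.Agent.H423.SH.den_family hD1 P hP2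
  obtain ⟨C2, hC2, cmp⟩ := Q265.BD.compositum ℚ F
  have hlog2 : 0 ≤ Real.log 2 := Real.log_nonneg one_le_two
  refine ⟨2 * C1 + Real.log 2, N, Module.finrank ℚ F, hN, fun K _ _ => ?_⟩
  obtain ⟨M, k1, k2, k3, k4, k5, k6, k7, hfin, -⟩ := cmp K
  obtain rfl : k3 = DivisionRing.toRatAlgebra := Subsingleton.elim _ _
  refine ⟨M, k1, k2, k4, hfin, fun ε₀ hε₀ hbad ε hε hεs C => ?_⟩
  obtain ⟨η, hη⟩ : ∃ η : ℝ, η = ε₀ / (1 + ε₀) := ⟨_, rfl⟩
  have h1ε : 0 < 1 + ε₀ := by linarith
  have hη0 : 0 < η := by rw [hη]; positivity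
  have hηe : (1 - η) * (1 + ε₀) = 1 := by
    rw [hη]
    field_simp
    ring
  have hDε : ε * D ≤ η := by
    rw [hη, le_div_iff₀ h1ε, hD]
    push_cast
    linarith
  -- the constant for the given exception
  obtain ⟨C0, hC0⟩ : ∃ C0 : ℝ, C0 = (1 + ε₀) * (|C| + (3 + ε) * C1) + Real.log 2 + 1 :=
    ⟨_, rfl⟩
  unfold Inequality at hbad
  push Not at hbad
  obtain ⟨x, hx, hlt⟩ := hbad C0
  obtain ⟨a, ha'⟩ : ∃ a, a = x 0 := ⟨_, rfl⟩
  obtain ⟨b, hb'⟩ : ∃ b, b = x 1 := ⟨_, rfl⟩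
  obtain ⟨c, hc'⟩ : ∃ c, c = x 2 := ⟨_, rfl⟩
  have ha : a ≠ 0 := by rw [ha']; exact hx.2 0
  have hb : b ≠ 0 := by rw [hb']; exact hx.2 1
  have hc : c ≠ 0 := by rw [hc']; exact hx.2 2
  have habc : a + b + c = 0 := by rw [ha', hb', hc']; exact hx.1
  have hxe : h x = logHeight ![a, b, c] / Module.finrank ℚ K := by
    unfold h
    rw [ha', hb', hc', ← eta]
  obtain ⟨s, hs⟩ : ∃ s : K, s = -a / c := ⟨_, rfl⟩
  have hs0 : s ≠ 0 := by rw [hs]; exact div_ne_zero (neg_ne_zero.2 ha) hc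
  have hs1 : s ≠ 1 := by
    rw [hs]
    intro h
    have h7 : -a = c := (div_eq_one_iff_eq hc).1 h
    exact hb (by linear_combination habc + h7)
  obtain ⟨nL, hnL⟩ : ∃ nL : ℝ, nL = Module.finrank ℚ K := ⟨_, rfl⟩
  have hnLp : 0 < nL := by
    rw [hnL]
    exact_mod_cast Module.finrank_pos
  obtain ⟨mm, hmm⟩ : ∃ mm : ℝ, mm = Module.finrank K M := ⟨_, rfl⟩
  have hmmp : 0 < mm := by
    rw [hmm]
    exact_mod_cast Module.finrank_pos
  have hQM : (Module.finrank ℚ M : ℝ) = nL * mm := by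
    rw [← Module.finrank_mul_finrank ℚ K M, hnL, hmm]
    push_cast
    rfl
  -- the height of the given exception
  obtain ⟨hh, hhh⟩ : ∃ hh : ℝ, hh = logHeight₁ s / nL := ⟨_, rfl⟩
  have hHs : logHeight₁ s = nL * hh := by
    rw [hhh]
    field_simp
  have hh0 : 0 ≤ hh := by
    rw [hhh]
    have := zero_le_logHeight₁ s
    positivity
  have hup : h x ≤ hh + Real.log 2 := by
    have h7 := height_up ha hb hc habc
    rw [h1_eq, ← hs, hHs, ← hnL] at h7
    rw [hxe, ← hnL, div_le_iff₀ hnLp]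
    linarith
  obtain ⟨U, hU⟩ : ∃ U : ℝ, U = Real.log (Q265.NF.PP (Q265.BD.UsA ∅ ![0, 1] s)) := ⟨_, rfl⟩
  have hU0 : 0 ≤ U := by rw [hU]; exact Q265.BM.log_PP_nonneg _
  have hgoal : rad x = U / nL := by
    rw [rad_eq hx, ← ha', ← hc', ← hs, ← hU, hnL]
  rw [hgoal] at hlt
  obtain ⟨E, hE⟩ : ∃ E : ℝ, E = U / nL := ⟨_, rfl⟩
  have hE0 : 0 ≤ E := by rw [hE]; positivity
  have hEn : nL * E = U := by
    rw [hE]
    field_simp
  rw [← hE] at hlt
  -- `(1 + ε₀) (E + |C| + …) < h`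
  have hmain : (1 + ε₀) * (E + |C| + (3 + ε) * C1) < hh := by
    have e : (1 + ε₀) * (E + |C| + (3 + ε) * C1) + Real.log 2 + 1 =
        (1 + ε₀) * E + ((1 + ε₀) * (|C| + (3 + ε) * C1) + Real.log 2 + 1) := by ring
    rw [← hC0] at e
    linarith
  have hsmall : E + |C| + (3 + ε) * C1 < (1 - η) * hh := by
    have h7 : (1 - η) * ((1 + ε₀) * (E + |C| + (3 + ε) * C1)) < (1 - η) * hh := by
      refine mul_lt_mul_of_pos_left hmain ?_
      have : 0 < (1 - η) * (1 + ε₀) := by rw [hηe]; exact one_pos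
      exact pos_of_mul_pos_left this h1ε.le
    rwa [← mul_assoc, hηe, one_mul] at h7
  have hC0' := abs_nonneg C
  have hbig : C1 < hh := by
    have h7 : (1 - η) * hh ≤ hh := by nlinarith
    have h8 : 0 ≤ (2 + ε) * C1 := by positivity
    have e : (3 + ε) * C1 = C1 + (2 + ε) * C1 := by ring
    rw [e] at hsmall
    linarith
  -- the point over the larger field
  obtain ⟨t, ht⟩ : ∃ t : M, t = algebraMap K M s := ⟨_, rfl⟩
  have hht : logHeight₁ t = mm * (nL * hh) := by
    rw [ht, Q265.BD.ext1, hmm, hHs]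
  have hUp : Q265.BD.Up (∅ : Set (FinitePlace K)) M = ∅ := by
    ext w
    constructor
    · rintro ⟨v, hv, -⟩
      exact hv
    · intro h
      exact absurd h (Set.notMem_empty w)
  have hUt : Real.log (Q265.NF.PP (Q265.BD.UsA ∅ ![0, 1] t)) ≤ mm * U := by
    have h7 := Q265.BD.UsA_up (M := M) (∅ : Set (FinitePlace K)) (a := ![0, 1]) (t := s) (by
      intro i
      fin_cases i
      · exact hs0
      · exact hs1)
    have e1 : (fun i => algebraMap K M ((![0, 1] : Fin 2 → K) i)) = ![0, 1] := by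
      funext i
      fin_cases i <;> simp
    rwa [e1, ← ht, ← hmm, ← hU, hUp] at h7
  have hnm : 0 < nL * mm := by positivity
  obtain ⟨hinj, hval⟩ := fam M t (by
    rw [hht, hQM]
    have : nL * mm * C1 < nL * mm * hh := mul_lt_mul_of_pos_left hbig hnm
    linarith)
  -- the properties of a value
  have key : ∀ f ∈ P, ∀ y : M, y = (f.map (algebraMap F M)).eval t → y ≠ 0 ∧ y ≠ 1 ∧
      (1 + ε) * rad ![y, 1 - y, -1] + C ≤ h ![y, 1 - y, -1] ∧
      D * hh - C1 ≤ h ![y, 1 - y, -1] ∧ h ![y, 1 - y, -1] ≤ D * hh + C1 + Real.log 2 := by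
    intro f hf y hy
    obtain ⟨q1, q2, q3, q4, q5⟩ := hval f hf y hy
    rw [hht, hQM] at q3 q4 q5
    have r1 : D * hh - C1 ≤ h ![y, 1 - y, -1] := by
      refine le_trans ?_ (h_one_low y)
      rw [hQM, le_div_iff₀ hnm]
      linarith
    have r2 : h ![y, 1 - y, -1] ≤ D * hh + C1 + Real.log 2 := by
      refine (h_one_up q1 q2).trans ?_
      rw [hQM]
      have : logHeight₁ y / (nL * mm) ≤ D * hh + C1 := by
        rw [div_le_iff₀ hnm]
        linarith
      linarith
    refine ⟨q1, q2, ?_, r1, r2⟩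
    have r3 : rad ![y, 1 - y, -1] ≤ E + (D - 1) * hh + C1 := by
      rw [rad_one q1 q2, hQM, div_le_iff₀ hnm]
      have e : (E + (D - 1) * hh + C1) * (nL * mm) =
          mm * (nL * E) + (D - 1) * (mm * (nL * hh)) + nL * mm * C1 := by ring
      rw [e, hEn]
      linarith
    exact (arith hε hη0.le hDε hh0 hC1 hsmall r3 r1).le
  refine ⟨P.image (fun f : F[X] => (f.map (algebraMap F M)).eval t), ⟨?_, ?_, ?_⟩, ?_⟩
  · intro x hx
    obtain ⟨f, hf, hfx⟩ := Finset.mem_image.1 hx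
    obtain ⟨q1, q2, q3, -, -⟩ := key f hf x hfx.symm
    exact ⟨q1, q2, q3⟩
  · intro x hx y hy
    obtain ⟨f, hf, hfx⟩ := Finset.mem_image.1 hx
    obtain ⟨g, hg, hgy⟩ := Finset.mem_image.1 hy
    obtain ⟨-, -, -, -, q1⟩ := key f hf x hfx.symm
    obtain ⟨-, -, -, q2, -⟩ := key g hg y hgy.symm
    linarith
  · intro x hx y hy v hv
    obtain ⟨f, hf, hfx⟩ := Finset.mem_image.1 hx
    obtain ⟨g, hg, hgy⟩ := Finset.mem_image.1 hy
    rw [← hfx, ← hgy, den M t v hv f hf, den M t v hv g hg]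
  · rw [Finset.card_image_of_injOn hinj]
    exact many_enough hn hP1

/-- the clusters in terms of `ε` -/
theorem clusters_exp {K : Type} [Field K] [NumberField K] {ε₀ : ℝ} (hε₀ : 0 < ε₀)
    (hbad : ¬ Inequality K ε₀) {ε : ℝ} (hε : 0 < ε) (hεs : 27 * ε * (1 + ε₀) ≤ ε₀) :
    ∃ (A : ℝ) (N : ℕ), 0 < N ∧ ∃ (L : Type) (_ : Field L) (_ : NumberField L) (_ : Algebra K L),
      ∀ C : ℝ, ∃ W : Finset L, Cluster ε C A N W ∧
        Real.exp (ε₀ / (6 * (1 + ε₀)) / ε) ≤ W.card := by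
  have h1ε : 0 < 1 + ε₀ := by linarith
  obtain ⟨η, hη⟩ : ∃ η : ℝ, η = ε₀ / (1 + ε₀) := ⟨_, rfl⟩
  have hη0 : 0 < η := by rw [hη]; positivity
  have hη27 : 27 ≤ η / ε := by
    rw [le_div_iff₀ hε, hη, le_div_iff₀ h1ε]
    linarith
  obtain ⟨n, hn⟩ : ∃ n : ℕ, n = ⌊η / (3 * ε)⌋₊ := ⟨_, rfl⟩
  have hq : η / (3 * ε) = η / ε / 3 := by
    rw [div_div, mul_comm 3 ε]
  have hn1 : (n : ℝ) ≤ η / (3 * ε) := by
    rw [hn]
    exact Nat.floor_le (by positivity)
  have hn2 : η / (3 * ε) < n + 1 := by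
    rw [hn]
    exact Nat.lt_floor_add_one _
  have hn8 : 8 ≤ n := by
    have : (8 : ℝ) < n + 1 := by
      refine lt_of_le_of_lt ?_ hn2
      rw [hq]
      linarith
    have h9 : (8 : ℕ) < n + 1 := by exact_mod_cast this
    omega
  obtain ⟨A, N, B, hN, hcl⟩ := clusters n hn8
  obtain ⟨L, j1, j2, j3, -, hL⟩ := hcl K
  refine ⟨A, N, hN, L, j1, j2, j3, fun C => ?_⟩
  obtain ⟨W, hW, hcard⟩ := hL ε₀ hε₀ hbad ε hε (by
    rw [hη, div_div, le_div_iff₀ (by positivity)] at hn1
    linarith) C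
  refine ⟨W, hW, ?_⟩
  have h2 : Real.exp (((n : ℝ) + 1) / 2) ≤ 2 ^ (n + 1) := by
    have h3 : Real.exp (1 / 2) ≤ 2 := by
      have h4 : Real.exp (1 / 2) ^ 2 ≤ 2 ^ 2 := by
        rw [← Real.exp_nat_mul]
        have := Real.exp_one_lt_d9
        norm_num
        linarith
      exact le_of_sq_le_sq h4 (by norm_num)
    calc Real.exp (((n : ℝ) + 1) / 2) = Real.exp (1 / 2) ^ (n + 1) := by
          rw [← Real.exp_nat_mul]
          congr 1
          push_cast
          ring
      _ ≤ 2 ^ (n + 1) := pow_le_pow_left₀ (Real.exp_pos _).le h3 _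
  refine le_trans ?_ (h2.trans (by exact_mod_cast hcard))
  rw [Real.exp_le_exp]
  have h3 : ε₀ / (6 * (1 + ε₀)) / ε = η / (3 * ε) / 2 := by
    rw [hη]
    field_simp
    norm_num
  rw [h3]
  linarith

/-- There are arbitrarily small `ε` for which the clusters of exceptions have less than
`exp (c / ε)` elements: for all number fields `K` and all `A`, `N` there is a constant `C` for which
this holds. -/
def SmallClusters (c : ℝ) : Prop :=
  ∀ δ : ℝ, 0 < δ → ∃ ε : ℝ, 0 < ε ∧ ε < δ ∧ ∀ (K : Type) [Field K] [NumberField K] (A : ℝ) (N : ℕ),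
    0 < N → ∃ C : ℝ, ∀ W : Finset K, Cluster ε C A N W → (W.card : ℝ) < Real.exp (c / ε)

/-- **The abc conjecture over number fields and the size of the clusters of its exceptions.**
(1) For every `n ≥ 8` there are `A`, `N`, `B` such that every number field `K` has an extension `L`
of degree at most `B` with the following property: if the inequality with exponent `1 + ε₀` fails
over `K`, then for all `ε > 0` with `3 n (1 + ε₀) ε ≤ ε₀` and all `C` there is a cluster over `L`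
with at least `2 ^ (n + 1)` elements. (2) The abc conjecture holds for all number fields if and only
if for every `c > 0` there are arbitrarily small `ε` for which the clusters of exceptions over all
number fields have less than `exp (c / ε)` elements. -/
theorem result :
    (∀ n : ℕ, 8 ≤ n → ∃ (A : ℝ) (N B : ℕ), 0 < N ∧
      ∀ (K : Type) [Field K] [NumberField K], ∃ (L : Type) (_ : Field L) (_ : NumberField L)
        (_ : Algebra K L), Module.finrank K L ≤ B ∧
        ∀ ε₀ : ℝ, 0 < ε₀ → ¬ Inequality K ε₀ → ∀ ε : ℝ, 0 < ε → 3 * n * (1 + ε₀) * ε ≤ ε₀ →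
          ∀ C : ℝ, ∃ W : Finset L, Cluster ε C A N W ∧ 2 ^ (n + 1) ≤ W.card) ∧
    ((∀ (K : Type) [Field K] [NumberField K], ABC K) ↔ ∀ c : ℝ, 0 < c → SmallClusters c) := by
  refine ⟨clusters, ?_, ?_⟩
  · intro H c hc δ hδ
    refine ⟨δ / 2, by positivity, by linarith, fun K _ _ A N _ => ?_⟩
    obtain ⟨C, hC⟩ := H K (δ / 2) (by positivity)
    refine ⟨C, fun W hW => ?_⟩
    have : W = ∅ := by
      by_contra hne
      obtain ⟨y, hy⟩ := Finset.nonempty_iff_ne_empty.2 hne
      obtain ⟨h1, h2, h3⟩ := hW.1 y hy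
      have h4 := hC ![y, 1 - y, -1] ⟨by simp, fun i => by
        fin_cases i
        · exact h1
        · exact sub_ne_zero.2 (Ne.symm h2)
        · exact neg_ne_zero.2 one_ne_zero⟩
      linarith
    rw [this, Finset.card_empty, Nat.cast_zero]
    exact Real.exp_pos _
  · intro H K _ _ ε₀ hε₀
    by_contra hbad
    have hbad' : ¬ Inequality K ε₀ := fun ⟨C, hC⟩ => hbad ⟨C, fun x hx => hC x hx⟩
    have h1ε : 0 < 1 + ε₀ := by linarith
    obtain ⟨ε, h1, h2, h3⟩ := H (ε₀ / (6 * (1 + ε₀))) (by positivity) (ε₀ / (27 * (1 + ε₀)))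
      (by positivity)
    have h4 : 27 * ε * (1 + ε₀) ≤ ε₀ := by
      rw [lt_div_iff₀ (by positivity)] at h2
      linarith
    obtain ⟨A, N, hN, L, i1, i2, -, hcl⟩ := clusters_exp hε₀ hbad' h1 h4
    obtain ⟨C, hC⟩ := h3 L A N hN
    obtain ⟨W, hW, hcard⟩ := hcl C
    have := hC W hW
    linarith

end Pool.Agent.Results.MP_a793bb_nt.ExponentialClusters
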