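import Pool.Agent.H326.KQ.B
import Pool.Agent.H326.KQ.C
import Pool.Agent.H326.KQ.D
import Pool.Agent.H573.AHB.UnJ
import Pool.Agent.H573.AHB.DnB

/-!
# MP_a793bb_nt: abc-triples of powers over imaginary quadratic fields

Let `K` be an imaginary quadratic field with ring of integers `𝓞 K`. We consider the abc-triples
`(x^m : -y^n : -w^k)` with `2N ∣ m, n` and `p ∣ k`, and `(x^m : b^n : -c^k)` with `N ∣ m` and
`2p ∣ n, k`, of nonzero elements of `𝓞 K`, two of which are coprime, with `w` resp. `x` prime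
to `2`, for all primes `5 ≤ p ≤ z`; for the first kind we assume `p ∤ h_K`. `AtExponent K N z G`
says, for all such `p` and all such triples: in the first, `p` is not prime to `x y`; and if `p` is
inert in `K`, then one of `x`, `y` is divisible by `p` and `Large`, i.e. divisible by all `q ∈ G`
and of absolute norm at least `exp(2z)`; in the second, if `p` is inert or prime to `x`, then `p`
is prime to `x` and `b c` is `Large`.

(1) There are `δ > 0` and a set `S` of primes of positive logarithmic proportion (the sum of `1/s`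
over `s ∈ S ∩ [X^{5/8}, X]` is bounded below) such that each `s ∈ S` has a set `G` of at least
`s^δ` primes `q ≡ 1 (mod s)` with `AtExponent K s (s^δ) G`.
(2) For every `η > 0` there is `κ > 0` such that `AtExponent K N (N^κ) ∅` holds for all but at most
`η X` integers `N ≤ X`, for all large `X`.
-/

namespace Pool.Agent.Results.MP_a793bb_nt.PowerTriplesImaginaryQuadratic

open NumberField Pool.Agent.H573.AHB Pool.Agent.H326.FC Pool.Agent.H326.KQ

/-- `w` is divisible by all elements of `G`, and its absolute norm is at least `exp(2z)` -/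
def Large (K : Type) [Field K] [NumberField K] (G : Finset ℕ) (z : ℝ) (w : 𝓞 K) : Prop :=
  (∀ q ∈ G, (q : 𝓞 K) ∣ w) ∧ Real.exp (2 * z) ≤ ((Algebra.norm ℤ w).natAbs : ℝ)

/-- All solutions of `x^m - y^n = w^k` in nonzero elements of `𝓞 K` with `x`, `y` coprime, `w`
prime to `2`, and positive exponents with `2N ∣ m`, `2N ∣ n`, `p ∣ k`, have `p` not prime to `x y`;
if `p` is inert, then `p` divides `x` and `x` is `Large`, or `p` divides `y` and `y` is `Large`. -/
def FirstKind (K : Type) [Field K] [NumberField K] (N p : ℕ) (z : ℝ) (G : Finset ℕ) : Prop :=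
  ∀ (x y w : 𝓞 K) (m n k : ℕ), 0 < m → 0 < n → 0 < k → x ≠ 0 → y ≠ 0 → w ≠ 0 →
    IsCoprime x y → IsCoprime w 2 → 2 * N ∣ m → 2 * N ∣ n → p ∣ k → x ^ m - y ^ n = w ^ k →
    ¬ IsCoprime (p : 𝓞 K) (x * y) ∧
    (Prime (p : 𝓞 K) →
      ((p : 𝓞 K) ∣ x ∧ Large K G z x) ∨ ((p : 𝓞 K) ∣ y ∧ Large K G z y))

/-- All solutions of `x^m + b^n = c^k` in nonzero elements of `𝓞 K` with `b`, `c` coprime, `x`
prime to `2`, positive exponents with `N ∣ m`, `2p ∣ n`, `2p ∣ k`, and with `p` inert or prime to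
`x`, have `p` prime to `x` and `b c` `Large`. -/
def SecondKind (K : Type) [Field K] [NumberField K] (N p : ℕ) (z : ℝ) (G : Finset ℕ) : Prop :=
  ∀ (x b c : 𝓞 K) (m n k : ℕ), 0 < m → 0 < n → 0 < k → x ≠ 0 → b ≠ 0 → c ≠ 0 →
    IsCoprime b c → IsCoprime x 2 → N ∣ m → 2 * p ∣ n → 2 * p ∣ k → x ^ m + b ^ n = c ^ k →
    (IsCoprime (p : 𝓞 K) x ∨ Prime (p : 𝓞 K)) → IsCoprime (p : 𝓞 K) x ∧ Large K G z (b * c)

/-- `SecondKind` for all primes `5 ≤ p ≤ z`, and `FirstKind` for those prime to the class number -/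
def AtExponent (K : Type) [Field K] [NumberField K] (N : ℕ) (z : ℝ) (G : Finset ℕ) : Prop :=
  ∀ p : ℕ, p.Prime → 5 ≤ p → (p : ℝ) ≤ z →
    (¬ p ∣ classNumber K → FirstKind K N p z G) ∧ SecondKind K N p z G

theorem result (K : Type) [Field K] [NumberField K] (hK : Module.finrank ℚ K = 2)
    (hC : IsTotallyComplex K) :
    (∃ δ : ℝ, 0 < δ ∧ ∃ S : Set ℕ, (∀ s ∈ S, s.Prime) ∧
      (∃ c : ℝ, 0 < c ∧ ∃ X₀ : ℕ, ∀ X : ℕ, X₀ ≤ X →
        c ≤ ∑ᶠ s ∈ {s : ℕ | s ∈ S ∧ (X : ℝ) ^ (5 / 8 : ℝ) ≤ s ∧ s ≤ X}, (1 : ℝ) / s) ∧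
      ∀ s ∈ S, ∃ G : Finset ℕ, (s : ℝ) ^ δ ≤ (G.card : ℝ) ∧ (∀ q ∈ G, q.Prime ∧ s ∣ q - 1) ∧
        AtExponent K s ((s : ℝ) ^ δ) G) ∧
    (∀ η : ℝ, 0 < η → ∃ κ : ℝ, 0 < κ ∧ ∃ X₁ : ℕ, ∀ X : ℕ, X₁ ≤ X →
      (Set.ncard {N : ℕ | N ≤ X ∧ ¬ AtExponent K N ((N : ℝ) ^ κ) ∅} : ℝ) ≤ η * X) := by
  classical
  obtain ⟨f0, hf0, hhom⟩ := exists_hom hK
  have hdisc : discr K ≠ 0 := discr_ne_zero K
  have hdisc1 : 1 ≤ (discr K).natAbs := Int.natAbs_pos.mpr hdisc
  have hus : USparse (fun m q n => W1 1 m q n ∨ W4 m q n) := (usparse_W1 1 rfl).or usparse_W4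
  obtain ⟨δ, hδ0, hδ1, S, hS, hdens⟩ := diagV (f0 * (discr K).natAbs)
    (Nat.one_le_iff_ne_zero.mpr (Nat.mul_ne_zero (by omega) (by omega))) _ hus
    (5 + classNumber K)
  have hh0 : 0 < classNumber K := classNumber_pos K
  have main : ∀ s ∈ S, ∃ G : Finset ℕ, (s : ℝ) ^ δ ≤ (G.card : ℝ) ∧
      (∀ q ∈ G, q.Prime ∧ s ∣ q - 1) ∧ ∀ N : ℕ, s ∣ N → AtExponent K N ((s : ℝ) ^ δ) G := by
    intro s hs
    obtain ⟨hsp, hs2, G, hG1, hG2⟩ := hS s hs
    have hs5 : 5 < s := by omega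
    have hsh : ¬ s ∣ classNumber K := fun h => by
      have := Nat.le_of_dvd hh0 h
      omega
    have hs1 : (1 : ℝ) ≤ s := by exact_mod_cast (by omega : 1 ≤ s)
    have hsδ : (s : ℝ) ^ δ ≤ s := by
      calc (s : ℝ) ^ δ ≤ (s : ℝ) ^ (1 : ℝ) :=
            Real.rpow_le_rpow_of_exponent_le hs1 (by linarith)
        _ = s := Real.rpow_one _
    have hG3 : ∀ q ∈ G, q.Prime ∧ 2 * s < q ∧ f0 ∣ q - 1 ∧ ¬ (q : ℤ) ∣ discr K ∧ s ∣ q - 1 ∧
        ∀ m : ℕ, ((2 * m + 1 : ℕ) : ℝ) ≤ (s : ℝ) ^ δ →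
          2 * (2 * m + 1) < q ∧ ¬ W1 1 m q ((q - 1) / s) ∧ ¬ W4 m q ((q - 1) / s) := by
      intro q hq
      obtain ⟨k1, k2, k3, k4⟩ := hG2 q hq
      have hq2 := k1.two_le
      have hqs : 2 * s < q := by
        obtain ⟨t, ht⟩ := k3
        have ht0 : t ≠ 0 := by
          rintro rfl
          rw [mul_zero] at ht
          omega
        rcases Nat.lt_or_ge 1 t with h | h
        · have : s * 2 ≤ s * t := Nat.mul_le_mul_left _ h
          omega
        · exfalso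
          have ht1 : t = 1 := by omega
          rw [ht1, mul_one] at ht
          have hso : Odd s := hsp.odd_of_ne_two (by omega)
          have hqe : Even q := by
            have : q = s + 1 := by omega
            rw [this]
            exact hso.add_odd odd_one
          have := (Nat.Prime.even_iff k1).mp hqe
          omega
      refine ⟨k1, hqs, (Dvd.intro _ rfl).trans k2, ?_, k3, ?_⟩
      · intro h
        have h1 : q ∣ (discr K).natAbs := Int.natCast_dvd.mp h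
        have h2 : q ∣ q - 1 := (h1.trans (Dvd.intro_left _ rfl)).trans k2
        have := Nat.le_of_dvd (by omega) h2
        omega
      · intro m hm
        have h2 : 2 * m + 1 ≤ s := by
          have : ((2 * m + 1 : ℕ) : ℝ) ≤ s := hm.trans hsδ
          exact_mod_cast this
        have h3 := k4 m (by
          refine le_trans ?_ hm
          push_cast
          have : (0 : ℝ) ≤ m := Nat.cast_nonneg m
          linarith)
        push Not at h3
        exact ⟨by omega, h3.1, h3.2⟩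
    refine ⟨G, hG1, fun q hq => ⟨(hG3 q hq).1, (hG3 q hq).2.2.2.2.1⟩, ?_⟩
    rintro N ⟨N', rfl⟩ p hp hp5 hpd
    obtain ⟨i, rfl⟩ : ∃ i, p = 2 * i + 1 := hp.odd_of_ne_two (by omega)
    have hi : OKm i := ⟨by omega, hp⟩
    have h20 : (2 : 𝓞 K) ≠ 0 := two_ne_zero
    have hp0 : ((2 * i + 1 : ℕ) : 𝓞 K) ≠ 0 := by exact_mod_cast hp.ne_zero
    have h2p : ((2 * i + 1 : ℕ) : 𝓞 K) ∣ 2 → False := not_dvd_two hK (by omega)
    have hpows : ∀ a b c : 𝓞 K, c ≠ 0 → IsCoprime a b → a * b = c ^ s → ∃ d, a = d ^ s :=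
      pow_of_mul hK hC hsp (by omega) hsh
    -- elements of all prime ideals above the elements of `G`
    have hbig : ∀ w : 𝓞 K, w ≠ 0 → (∀ q ∈ G, ∀ ψ : 𝓞 K →+* ZMod q, ψ w = 0) →
        Large K G ((s : ℝ) ^ δ) w := by
      intro w hw0 hw
      have h1 : ∀ q ∈ G, (q : 𝓞 K) ∣ w := by
        intro q hq
        obtain ⟨k1, -, k3, k4, -, -⟩ := hG3 q hq
        apply dvd_of_mem k1 k4
        intro P hP hqP
        obtain ⟨ψ, hψ⟩ := hhom q k1 k3 P hP hqP
        rw [← hψ]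
        exact (RingHom.mem_ker).mpr (hw q hq ψ)
      refine ⟨h1, ?_⟩
      refine le_trans ?_ (norm_big hK G w hw0 (fun q hq => ⟨(hG3 q hq).1, ?_, h1 q hq⟩))
      · apply Real.exp_le_exp.mpr
        linarith
      · have := (hG3 q hq).2.1
        omega
    -- an element of `G` and a prime ideal above it
    have hGne : G.Nonempty := by
      rw [← Finset.card_pos]
      have h1 : (0 : ℝ) < (s : ℝ) ^ δ := by
        apply Real.rpow_pos_of_pos
        linarith
      have h2 : (0 : ℝ) < (G.card : ℝ) := lt_of_lt_of_le h1 hG1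
      exact_mod_cast h2
    obtain ⟨q0, hq0⟩ := hGne
    obtain ⟨ψ0, -⟩ : ∃ ψ : 𝓞 K →+* ZMod q0, True := by
      obtain ⟨k1, -, k3, k4, -, -⟩ := hG3 q0 hq0
      have hne : Ideal.span {(q0 : 𝓞 K)} ≠ ⊤ := by
        intro h
        rw [Ideal.span_singleton_eq_top] at h
        have h1 : IsUnit (Algebra.norm ℤ (q0 : 𝓞 K)) := h.map _
        rw [norm_nat hK, Int.isUnit_iff] at h1
        have h2 : (2 : ℤ) ≤ q0 := by exact_mod_cast k1.two_le
        rcases h1 with h1 | h1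
        · nlinarith
        · nlinarith
      obtain ⟨P, hP1, hP2⟩ := Ideal.exists_le_maximal _ hne
      obtain ⟨ψ, -⟩ := hhom q0 k1 k3 P hP1.isPrime (hP2 (Ideal.mem_span_singleton_self _))
      exact ⟨ψ, trivial⟩
    constructor
    · rintro hph x y w m n k hm hn hk hx0 hy0 hw0 hco hw2 ⟨m', rfl⟩ ⟨n', rfl⟩ ⟨k', rfl⟩ heq
      have hN0 : N' ≠ 0 := by
        rintro rfl
        simp at hm
      have hm0 : m' ≠ 0 := by
        rintro rfl
        simp at hm
      have hn0 : n' ≠ 0 := by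
        rintro rfl
        simp at hn
      have hk0 : k' ≠ 0 := by
        rintro rfl
        simp at hk
      have hpowp : ∀ a b c : 𝓞 K, c ≠ 0 → IsCoprime a b → a * b = c ^ (2 * i + 1) →
          ∃ d, a = d ^ (2 * i + 1) := pow_of_mul hK hC hp hp5 hph
      have hxm : N' * m' ≠ 0 := Nat.mul_ne_zero hN0 hm0
      have hyn : N' * n' ≠ 0 := Nat.mul_ne_zero hN0 hn0
      have heq' : (x ^ (N' * m')) ^ (2 * s) - (y ^ (N' * n')) ^ (2 * s) =
          (w ^ k') ^ (2 * i + 1) := by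
        rw [← pow_mul, ← pow_mul, ← pow_mul, mul_comm k', ← heq]
        congr 1
        · ring
        · ring
      have hloc : ∀ q ∈ G, ∀ ψ : 𝓞 K →+* ZMod q, _ := fun q hq ψ =>
        loc_diff i hi h20 hp0 h2p s q (by omega) hpowp hpows (h2d hK hp hp5) (hG3 q hq).1
          ((hG3 q hq).2.2.2.2.2 i hpd).1 (hG3 q hq).2.2.2.2.1 ψ
          ((hG3 q hq).2.2.2.2.2 i hpd).2.1 (x ^ (N' * m')) (y ^ (N' * n')) (w ^ k')
          (pow_ne_zero _ hx0) (pow_ne_zero _ hy0) (pow_ne_zero _ hw0) hco.pow hw2.pow_left heq'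
      refine ⟨fun h => (hloc q0 hq0 ψ0).1 h.of_mul_right_left.pow_right
        h.of_mul_right_right.pow_right, ?_⟩
      intro hpr
      have hor : ((2 * i + 1 : ℕ) : 𝓞 K) ∣ x ∨ ((2 * i + 1 : ℕ) : 𝓞 K) ∣ y := by
        by_contra hcon
        push Not at hcon
        exact (hloc q0 hq0 ψ0).1 (cop_of_prime hp0 hpr x hcon.1).pow_right
          (cop_of_prime hp0 hpr y hcon.2).pow_right
      rcases hor with h | h
      · left
        refine ⟨h, hbig x hx0 ?_⟩
        intro q hq ψ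
        have hFq : Fact q.Prime := ⟨(hG3 q hq).1⟩
        have h1 := (hloc q hq ψ).2.1 hpr (dvd_pow h hxm)
        rw [map_pow] at h1
        exact (pow_eq_zero_iff hxm).mp h1
      · right
        refine ⟨h, hbig y hy0 ?_⟩
        intro q hq ψ
        have hFq : Fact q.Prime := ⟨(hG3 q hq).1⟩
        have h1 := (hloc q hq ψ).2.2 hpr (dvd_pow h hyn)
        rw [map_pow] at h1
        exact (pow_eq_zero_iff hyn).mp h1
    · rintro x b c m n k hm hn hk hx0 hb0 hc0 hco hx2 ⟨m', rfl⟩ ⟨n', rfl⟩ ⟨k', rfl⟩ heq hor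
      have hN0 : N' ≠ 0 := by
        rintro rfl
        simp at hm
      have hm0 : m' ≠ 0 := by
        rintro rfl
        simp at hm
      have hn0 : n' ≠ 0 := by
        rintro rfl
        simp at hn
      have hk0 : k' ≠ 0 := by
        rintro rfl
        simp at hk
      have hxm : N' * m' ≠ 0 := Nat.mul_ne_zero hN0 hm0
      have heq' : (x ^ (N' * m')) ^ s + (b ^ n') ^ (2 * (2 * i + 1)) =
          (c ^ k') ^ (2 * (2 * i + 1)) := by
        rw [← pow_mul, ← pow_mul, ← pow_mul, mul_comm k', ← heq]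
        congr 1
        · ring
        · ring
      have hloc : ∀ q ∈ G, ∀ ψ : 𝓞 K →+* ZMod q, _ := fun q hq ψ =>
        loc_pow i hi h20 hp0 h2p s q (by omega) hpows (hG3 q hq).1
          ((hG3 q hq).2.2.2.2.2 i hpd).1 (hG3 q hq).2.2.2.2.1 ψ
          ((hG3 q hq).2.2.2.2.2 i hpd).2.2 (x ^ (N' * m')) (b ^ n') (c ^ k')
          (pow_ne_zero _ hx0) hco.symm.pow hx2.pow_left heq'
      have hcp : IsCoprime ((2 * i + 1 : ℕ) : 𝓞 K) x := by
        rcases hor with h | h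
        · exact h
        · exact cop_of_prime hp0 h x (fun h1 => (hloc q0 hq0 ψ0).2 h (dvd_pow h1 hxm))
      refine ⟨hcp, hbig (b * c) (mul_ne_zero hb0 hc0) ?_⟩
      intro q hq ψ
      have hFq : Fact q.Prime := ⟨(hG3 q hq).1⟩
      have h1 := (hloc q hq ψ).1 hcp.pow_right
      rw [map_mul, map_pow, map_pow, mul_eq_zero, pow_eq_zero_iff hn0, pow_eq_zero_iff hk0] at h1
      rw [map_mul, mul_eq_zero]
      exact h1
  refine ⟨⟨δ, hδ0, S, fun s hs => (hS s hs).1, hdens, ?_⟩, ?_⟩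
  · intro s hs
    obtain ⟨G, h1, h2, h3⟩ := main s hs
    exact ⟨G, h1, h2, h3 s dvd_rfl⟩
  · have hL : ∀ (G : Finset ℕ) (z z' : ℝ) (w : 𝓞 K), z ≤ z' → Large K G z' w → Large K ∅ z w := by
      rintro G z z' w hz ⟨h1, h2⟩
      refine ⟨fun q hq => absurd hq (Finset.notMem_empty q), le_trans ?_ h2⟩
      apply Real.exp_le_exp.mpr
      linarith
    have hA : ∀ (G : Finset ℕ) (z z' : ℝ) (N : ℕ), z ≤ z' → AtExponent K N z' G →
        AtExponent K N z ∅ := by
      intro G z z' N hz hQ p hp hp5 hpz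
      obtain ⟨g1, g2⟩ := hQ p hp hp5 (hpz.trans hz)
      refine ⟨?_, ?_⟩
      · intro hph x y w m n k hm hn hk hx0 hy0 hw0 hco hw2 hm' hn' hk' heq
        obtain ⟨e1, e2⟩ := g1 hph x y w m n k hm hn hk hx0 hy0 hw0 hco hw2 hm' hn' hk' heq
        refine ⟨e1, fun hpr => ?_⟩
        rcases e2 hpr with ⟨e3, e4⟩ | ⟨e3, e4⟩
        · exact Or.inl ⟨e3, hL G z z' x hz e4⟩
        · exact Or.inr ⟨e3, hL G z z' y hz e4⟩
      · intro x b c m n k hm hn hk hx0 hb0 hc0 hco hx2 hm' hn' hk' heq hor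
        obtain ⟨e1, e2⟩ := g2 x b c m n k hm hn hk hx0 hb0 hc0 hco hx2 hm' hn' hk' heq hor
        exact ⟨e1, hL G z z' _ hz e2⟩
    refine almost_all_of S (fun s hs => (hS s hs).1) hdens (fun z N => AtExponent K N z ∅) δ hδ0
      0 ?_ ?_
    · intro s hs _ N hsN
      obtain ⟨G, -, -, h3⟩ := main s hs
      exact hA G _ _ N le_rfl (h3 N hsN)
    · intro z z' N hz hQ
      exact hA ∅ z z' N hz hQ

end Pool.Agent.Results.MP_a793bb_nt.PowerTriplesImaginaryQuadratic
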